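import Pool.Agent.W848.N2.Stm

/-!
# Backward walks through the light set (`S_BACK`)
-/

set_option autoImplicit false

namespace Pool.Agent.W73.N2

open Pool.Agent.W848.N2

/-- iteration of a step relation which keeps a state property -/
theorem back_of_state {V : Type} (R : V → V → Prop) (L : Set V) (w : V → ℝ) (q : ℝ)
    (P : V → Prop) (hw : ∀ v, P v → w v ≤ q)
    (hstep : ∀ v, P v → ∃ y, P y ∧ R y v ∧ (v ∈ L ∨ y ∈ L)) (x : V) (hx : P x) :
    Back R L w q x := by
  choose! nx h1 h2 h3 using hstep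
  let z : ℕ → V := fun n => Nat.rec x (fun _ v => nx v) n
  have hz : ∀ n, z (n + 1) = nx (z n) := fun n => rfl
  have hP : ∀ n, P (z n) := by
    intro n
    induction n with
    | zero => exact hx
    | succ n ih => rw [hz]; exact h1 _ ih
  refine ⟨z, rfl, fun n => ⟨?_, hw _ (hP n), ?_⟩⟩
  · rw [hz]; exact h2 _ (hP n)
  · rw [hz]; exact h3 _ (hP n)

theorem t_BACK : Pool.Agent.W848.N2.S_BACK := by
  intro V _ R hD w L q hLq hL hheavy
  obtain ⟨hout, hin⟩ := hD
  have e1 : ∀ v, ∃ y, R v y ∧ w y ≤ q := by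
    intro v
    have h := hout v
    obtain ⟨y, hy, hy2⟩ := Set.exists_mem_notMem_of_ncard_lt_ncard
      (s := {v | q < w v}) (t := {b | R v b}) (by omega)
    exact ⟨y, hy, not_lt.mp hy2⟩
  have e2 : ∀ v, ∃ y, R y v ∧ w y ≤ q := by
    intro v
    have h := hin v
    obtain ⟨y, hy, hy2⟩ := Set.exists_mem_notMem_of_ncard_lt_ncard
      (s := {v | q < w v}) (t := {b | R b v}) (by omega)
    exact ⟨y, hy, not_lt.mp hy2⟩
  refine ⟨e1, e2, ?_⟩
  by_cases hA : ∀ x ∈ L, ∃ y ∈ L, R x y
  · right
    intro x hx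
    refine back_of_state (fun a b => R b a) L w q (fun v => v ∈ L) hLq ?_ x hx
    intro v hv
    obtain ⟨y, hy, hy2⟩ := hA v hv
    exact ⟨y, hy, hy2, Or.inl hv⟩
  · left
    push Not at hA
    obtain ⟨y0, hy0, hno⟩ := hA
    intro x hx
    refine back_of_state R L w q (fun v => v ∈ L ∨ (w v ≤ q ∧ ∃ y ∈ L, R y v)) ?_ ?_ x
      (Or.inl hx)
    · rintro v (hv | ⟨hv, -⟩)
      · exact hLq v hv
      · exact hv
    · intro v hv
      by_cases hvL : v ∈ L
      · by_cases hB : ∃ y ∈ L, R y v
        · obtain ⟨y, hy, hyv⟩ := hB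
          exact ⟨y, Or.inl hy, hyv, Or.inl hvL⟩
        · push Not at hB
          have hsub : {b | R b v} ∪ {b | R y0 b} ⊆ Lᶜ := by
            rintro b (hb | hb) hbL
            · exact hB b hbL hb
            · exact hno b hbL hb
          have h1 := Set.ncard_le_ncard hsub (Set.toFinite _)
          have h2 := Set.ncard_union_add_ncard_inter {b | R b v} {b | R y0 b}
            (Set.toFinite _) (Set.toFinite _)
          have h3 := Set.ncard_add_ncard_compl L
          rw [Nat.card_eq_fintype_card] at h3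
          have h4 := hin v
          have h5 := hout y0
          obtain ⟨u, hu, hu2⟩ := Set.exists_mem_notMem_of_ncard_lt_ncard
            (s := {v | q < w v}) (t := {b | R b v} ∩ {b | R y0 b}) (by omega)
          exact ⟨u, Or.inr ⟨not_lt.mp hu2, y0, hy0, hu.2⟩, hu.1, Or.inl hvL⟩
      · rcases hv with hv | ⟨-, y, hy, hyv⟩
        · exact absurd hv hvL
        · exact ⟨y, Or.inl hy, hyv, Or.inr hy⟩

end Pool.Agent.W73.N2
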